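import Pool.Agent.helper11.VN.Spec3b
import Pool.Agent.helper3.VQ.FST

/-!
# MP_07c750_an, project VN, row FSTN: the flow for short times
-/

set_option autoImplicit false

open scoped MatrixGroups ContDiff Topology UpperHalfPlane ComplexConjugate ENNReal
open UpperHalfPlane MeasureTheory Filter Set

namespace Pool.Agent.VN

open Pool.Agent.RS Pool.Agent.VQ

noncomputable section

/-! ## The potential -/

theorem FSTN_U (Γ : Subgroup SL(2, ℝ)) (k : ℝ) (B : ℕ → ℝ) (U : ℍ → ℝ) (hU : PotN Γ k B U) (z : ℍ) : |U z| ≤ 1 / k := by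
  have h1 := hU.up (toSL2R z) 0 (by simp) 0 (by norm_num)
  rw [norm_iteratedFDeriv_zero, Real.norm_eq_abs, FST_U0, toSL2R_smul_I] at h1
  exact h1

theorem FSTN_fd (Γ : Subgroup SL(2, ℝ)) (k : ℝ) (B : ℕ → ℝ) (U : ℍ → ℝ) (hU : PotN Γ k B U) (g : SL(2, ℝ)) (v : ℂ) (hv : ‖v‖ ≤ 1) :
    ‖fderiv ℝ (Ug U g) v‖ ≤ 1 / k := by
  have h1 := hU.up g v hv 1 (by norm_num)
  rw [norm_iteratedFDeriv_one] at h1
  exact h1

theorem FSTN_n2 (Γ : Subgroup SL(2, ℝ)) (k : ℝ) (B : ℕ → ℝ) (U : ℍ → ℝ) (hU : PotN Γ k B U) (g : SL(2, ℝ)) : |n2 U g| ≤ 1 / k := by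
  have h1 := FSTN_fd Γ k B U hU g 0 (by simp)
  have h2 := (fderiv ℝ (Ug U g) 0).le_opNorm Complex.I
  rw [Complex.norm_I, mul_one] at h2
  exact h2.trans h1

theorem FSTN_diff (Γ : Subgroup SL(2, ℝ)) (k : ℝ) (B : ℕ → ℝ) (U : ℍ → ℝ) (hU : PotN Γ k B U) (g : SL(2, ℝ)) (v : ℂ) (hv : ‖v‖ < 2) :
    DifferentiableAt ℝ (Ug U g) v := by
  have h1 : ContDiffOn ℝ ∞ (QU.onC U) {w : ℂ | 0 < w.im} := hU.smooth
  have h2 := VCD_smooth g
  have h3 : ContDiffOn ℝ ∞ (fun w : ℂ => QU.onC U ((g • cdi w : ℍ) : ℂ)) (Metric.ball 0 2) :=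
    h1.comp h2 (fun w _ => (g • cdi w).im_pos)
  have h4 : Ug U g = fun w : ℂ => QU.onC U ((g • cdi w : ℍ) : ℂ) := by
    funext w
    unfold Ug QU.onC
    rw [ofComplex_apply]
  rw [h4]
  have h5 : v ∈ Metric.ball (0 : ℂ) 2 := by
    rw [Metric.mem_ball, dist_zero_right]
    exact hv
  exact (h3.contDiffAt (Metric.isOpen_ball.mem_nhds h5)).differentiableAt (by simp)

theorem FSTN_lip (Γ : Subgroup SL(2, ℝ)) (k : ℝ) (B : ℕ → ℝ) (U : ℍ → ℝ) (hU : PotN Γ k B U) (g : SL(2, ℝ)) (v : ℂ) (hv : ‖v‖ ≤ 1) :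
    |Ug U g v - Ug U g 0| ≤ 1 / k * ‖v‖ := by
  have h1 : ∀ w ∈ Metric.closedBall (0 : ℂ) 1, DifferentiableAt ℝ (Ug U g) w := by
    intro w hw
    rw [mem_closedBall_zero_iff] at hw
    exact FSTN_diff Γ k B U hU g w (by linarith)
  have h2 : ∀ w ∈ Metric.closedBall (0 : ℂ) 1, ‖fderiv ℝ (Ug U g) w‖ ≤ 1 / k := by
    intro w hw
    rw [mem_closedBall_zero_iff] at hw
    exact FSTN_fd Γ k B U hU g w hw
  have h3 := (convex_closedBall (0 : ℂ) 1).norm_image_sub_le_of_norm_fderiv_le h1 h2 (x := 0) (y := v) (by simp) (by simpa using hv)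
  rw [sub_zero, Real.norm_eq_abs] at h3
  exact h3

/-- the bounds of the fields: `L = 1/k`, `K = L²` -/
theorem FSTN_rho (Γ : Subgroup SL(2, ℝ)) (k : ℝ) (B : ℕ → ℝ) (U : ℍ → ℝ) (hU : PotN Γ k B U) (E : ℝ) (hE : |E| ≤ k) (g : SL(2, ℝ)) :
    k ≤ rho U E g ∧ rho U E g ≤ (1 / k) ^ 2 ∧ |kap U E g| ≤ (1 / k) ^ 2 ∧ rho U E g ^ 2 = U (g • I) + 2 * E := by
  obtain ⟨k0, k1⟩ := hU.kpos
  have h0 := hU.lo (g • I)
  have h1 := (abs_le.1 (FSTN_U Γ k B U hU (g • I))).2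
  have h2 := abs_le.1 hE
  have h3 := FSTN_n2 Γ k B U hU g
  have hL : 16 ≤ 1 / k := by
    rw [le_div_iff₀ k0]
    linarith
  have hkL : k * (1 / k) = 1 := by field_simp
  set L := 1 / k with hLdef
  have e1 : k ≤ rho U E g := by
    unfold rho
    apply Real.le_sqrt_of_sq_le
    nlinarith
  have e2 : rho U E g ≤ L := by
    unfold rho
    rw [Real.sqrt_le_left (by linarith)]
    nlinarith
  have e3 : L ≤ L ^ 2 := by nlinarith
  refine ⟨e1, e2.trans e3, ?_, ?_⟩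
  · unfold kap
    have hr : 0 < rho U E g := by linarith
    rw [abs_div, abs_of_pos (show 0 < 2 * rho U E g by linarith), div_le_iff₀ (by linarith)]
    have h4 : L = L ^ 2 * k := by nlinarith
    have h5 : L ^ 2 * k ≤ L ^ 2 * (2 * rho U E g) := mul_le_mul_of_nonneg_left (by linarith) (sq_nonneg L)
    linarith
  · unfold rho
    rw [Real.sq_sqrt (by linarith)]

/-! ## The orbit -/

theorem FSTN_dx (Γ : Subgroup SL(2, ℝ)) (k : ℝ) (B : ℕ → ℝ) (D : Dyn) (hD : OKN Γ k B D) (E : ℝ) (hE : |E| ≤ k) (g : SL(2, ℝ)) (u : ℝ) (i : Fin 2) :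
    HasDerivAt (fun s => (g⁻¹ * D.fl E s g).1 i 0)
      ((g⁻¹ * D.fl E u g).1 i 0 * (rho D.U E (D.fl E u g) / 2) - (g⁻¹ * D.fl E u g).1 i 1 * (kap D.U E (D.fl E u g) / 2)) u ∧
    HasDerivAt (fun s => (g⁻¹ * D.fl E s g).1 i 1)
      ((g⁻¹ * D.fl E u g).1 i 0 * (kap D.U E (D.fl E u g) / 2) - (g⁻¹ * D.fl E u g).1 i 1 * (rho D.U E (D.fl E u g) / 2)) u := by
  have e : ∀ (s : ℝ) (j : Fin 2), (g⁻¹ * D.fl E s g).1 i j = (g⁻¹).1 i 0 * (D.fl E s g).1 0 j + (g⁻¹).1 i 1 * (D.fl E s g).1 1 j := by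
    intro s j
    show ((g⁻¹).1 * (D.fl E s g).1) i j = _
    rw [Matrix.mul_apply, Fin.sum_univ_two]
  have hd := hD.dfl E u g hE
  have key : ∀ j : Fin 2, HasDerivAt (fun s => (g⁻¹ * D.fl E s g).1 i j)
      ((g⁻¹).1 i 0 * (((D.fl E u g).1 * XX D.U E (D.fl E u g)) 0 j) + (g⁻¹).1 i 1 * (((D.fl E u g).1 * XX D.U E (D.fl E u g)) 1 j)) u := by
    intro j
    have h1 := ((hd 0 j).const_mul ((g⁻¹).1 i 0)).add ((hd 1 j).const_mul ((g⁻¹).1 i 1))
    refine h1.congr_of_eventuallyEq (Filter.Eventually.of_forall fun s => ?_)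
    exact e s j
  have x00 : XX D.U E (D.fl E u g) 0 0 = rho D.U E (D.fl E u g) / 2 := by
    simp [XX, A0, K0]
    ring
  have x01 : XX D.U E (D.fl E u g) 0 1 = kap D.U E (D.fl E u g) / 2 := by
    simp [XX, A0, K0]
    ring
  have x10 : XX D.U E (D.fl E u g) 1 0 = -(kap D.U E (D.fl E u g) / 2) := by
    simp [XX, A0, K0]
    ring
  have x11 : XX D.U E (D.fl E u g) 1 1 = -(rho D.U E (D.fl E u g) / 2) := by
    simp [XX, A0, K0]
    ring
  constructor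
  · refine (key 0).congr_deriv ?_
    rw [e u 0, e u 1, Matrix.mul_apply, Matrix.mul_apply, Fin.sum_univ_two, Fin.sum_univ_two, x00, x10]
    ring
  · refine (key 1).congr_deriv ?_
    rw [e u 0, e u 1, Matrix.mul_apply, Matrix.mul_apply, Fin.sum_univ_two, Fin.sum_univ_two, x01, x11]
    ring

/-- the entries of `x(u) = g⁻¹ fl E u g` for `|u| ≤ 1` -/
theorem FSTN_x (Γ : Subgroup SL(2, ℝ)) (k : ℝ) (B : ℕ → ℝ) (D : Dyn) (hD : OKN Γ k B D) (E : ℝ) (hE : |E| ≤ k) (K M : ℝ) (hK : K = (1 / k) ^ 2) (hM : M = Real.exp K)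
    (g : SL(2, ℝ)) (u : ℝ) (hu : |u| ≤ 1) (i j : Fin 2) :
    |(g⁻¹ * D.fl E u g).1 i j| ≤ M ∧ |(g⁻¹ * D.fl E u g).1 i j - (1 : Matrix (Fin 2) (Fin 2) ℝ) i j| ≤ M * K * |u| := by
  have hr := fun v => FSTN_rho Γ k B D.U hD.pot E hE (D.fl E v g)
  rw [← hK] at hr
  obtain ⟨k0, -⟩ := hD.pot.kpos
  have hK0 : 0 ≤ K := by
    rw [hK]
    positivity
  have hM1 : 1 ≤ M := by
    rw [hM]
    exact Real.one_le_exp hK0
  have h0 : g⁻¹ * D.fl E 0 g = 1 := by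
    rw [hD.fl0, inv_mul_cancel]
  have h1 : ∀ i j, (g⁻¹ * D.fl E 0 g).1 i j = (1 : Matrix (Fin 2) (Fin 2) ℝ) i j := by
    intro i j
    rw [h0]
    rfl
  have hdx := fun v => FSTN_dx Γ k B D hD E hE g v i
  -- the square norm of the row
  have hS : ∀ v, |v| ≤ 1 → (g⁻¹ * D.fl E v g).1 i 0 ^ 2 + (g⁻¹ * D.fl E v g).1 i 1 ^ 2 ≤ M ^ 2 := by
    intro v hv
    have hd : ∀ v, HasDerivAt (fun s => (g⁻¹ * D.fl E s g).1 i 0 ^ 2 + (g⁻¹ * D.fl E s g).1 i 1 ^ 2)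
        (rho D.U E (D.fl E v g) * ((g⁻¹ * D.fl E v g).1 i 0 ^ 2 - (g⁻¹ * D.fl E v g).1 i 1 ^ 2)) v := by
      intro v
      refine (((hdx v).1.pow 2).add ((hdx v).2.pow 2)).congr_deriv ?_
      simp only [Nat.cast_ofNat]
      ring
    have hb : ∀ v, |rho D.U E (D.fl E v g) * ((g⁻¹ * D.fl E v g).1 i 0 ^ 2 - (g⁻¹ * D.fl E v g).1 i 1 ^ 2)| ≤
        K * ((g⁻¹ * D.fl E v g).1 i 0 ^ 2 + (g⁻¹ * D.fl E v g).1 i 1 ^ 2) := by
      intro v
      obtain ⟨e1, e2, -, -⟩ := hr v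
      have p0 := sq_nonneg ((g⁻¹ * D.fl E v g).1 i 0)
      have p1 := sq_nonneg ((g⁻¹ * D.fl E v g).1 i 1)
      rw [abs_mul, abs_of_pos (show 0 < rho D.U E (D.fl E v g) by linarith)]
      have h3 : |(g⁻¹ * D.fl E v g).1 i 0 ^ 2 - (g⁻¹ * D.fl E v g).1 i 1 ^ 2| ≤
          (g⁻¹ * D.fl E v g).1 i 0 ^ 2 + (g⁻¹ * D.fl E v g).1 i 1 ^ 2 := by
        rw [abs_le]
        constructor <;> linarith
      exact mul_le_mul e2 h3 (abs_nonneg _) hK0
    have h4 := FST_gr _ _ K hd hb v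
    simp only [h1] at h4
    rw [FST_one i, mul_one] at h4
    have h6 : Real.exp (K * |v|) ≤ Real.exp K := Real.exp_le_exp.2 (by nlinarith [abs_nonneg v])
    rw [← hM] at h6
    nlinarith
  have hx : ∀ v, |v| ≤ 1 → |(g⁻¹ * D.fl E v g).1 i 0| ≤ M ∧ |(g⁻¹ * D.fl E v g).1 i 1| ≤ M := by
    intro v hv
    have h := hS v hv
    constructor
    · apply abs_le_of_sq_le_sq (b := M) _ (by linarith)
      nlinarith [sq_nonneg ((g⁻¹ * D.fl E v g).1 i 1)]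
    · apply abs_le_of_sq_le_sq (b := M) _ (by linarith)
      nlinarith [sq_nonneg ((g⁻¹ * D.fl E v g).1 i 0)]
  have hbd : ∀ (x y r q : ℝ), |x| ≤ M → |y| ≤ M → |r| ≤ K → |q| ≤ K → |x * (r / 2) - y * (q / 2)| ≤ M * K := by
    intro x y r q hx hy hr hq
    have e1 : |x * (r / 2) - y * (q / 2)| ≤ |x * (r / 2)| + |y * (q / 2)| := abs_sub _ _
    rw [abs_mul, abs_mul, abs_div, abs_div, abs_two] at e1
    have e2 : |x| * (|r| / 2) ≤ M * (K / 2) := mul_le_mul hx (by linarith) (by positivity) (by linarith)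
    have e3 : |y| * (|q| / 2) ≤ M * (K / 2) := mul_le_mul hy (by linarith) (by positivity) (by linarith)
    linarith
  have hj : j = 0 ∨ j = 1 := by
    fin_cases j
    · left; rfl
    · right; rfl
  have hrr : ∀ v, |rho D.U E (D.fl E v g)| ≤ K := by
    intro v
    obtain ⟨e1, e2, -, -⟩ := hr v
    rw [abs_of_pos (by linarith)]
    exact e2
  rcases hj with rfl | rfl
  · refine ⟨(hx u hu).1, ?_⟩
    have h := FST_mv (fun s => (g⁻¹ * D.fl E s g).1 i 0) _ (M * K) u (fun v => (hdx v).1) (fun v hv => by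
      have hv1 : |v| ≤ 1 := hv.trans hu
      exact hbd _ _ _ _ (hx v hv1).1 (hx v hv1).2 (hrr v) (hr v).2.2.1)
    rw [h1] at h
    exact h
  · refine ⟨(hx u hu).2, ?_⟩
    have h := FST_mv (fun s => (g⁻¹ * D.fl E s g).1 i 1) _ (M * K) u (fun v => (hdx v).2) (fun v hv => by
      have hv1 : |v| ≤ 1 := hv.trans hu
      exact hbd _ _ _ _ (hx v hv1).1 (hx v hv1).2 (hr v).2.2.1 (hrr v))
    rw [h1] at h
    exact h

theorem FSTN_rl (Γ : Subgroup SL(2, ℝ)) (k : ℝ) (B : ℕ → ℝ) (D : Dyn) (hD : OKN Γ k B D) (E : ℝ) (hE : |E| ≤ k) (K M : ℝ) (hK : K = (1 / k) ^ 2) (hM : M = Real.exp K)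
    (g : SL(2, ℝ)) (u : ℝ) (hu : |u| ≤ 1) :
    |rho D.U E (D.fl E u g) - rho D.U E g| ≤ 4 * K ^ 2 * M * |u| := by
  obtain ⟨r1, r2, -, r3⟩ := FSTN_rho Γ k B D.U hD.pot E hE (D.fl E u g)
  obtain ⟨s1, s2, -, s3⟩ := FSTN_rho Γ k B D.U hD.pot E hE g
  obtain ⟨k0, k1⟩ := hD.pot.kpos
  have hL : 16 ≤ 1 / k := by
    rw [le_div_iff₀ k0]
    linarith
  have hkL : k * (1 / k) = 1 := by field_simp
  have hx := FSTN_x Γ k B D hD E hE K M hK hM g u hu
  have hUa := FSTN_U Γ k B D.U hD.pot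
  have hlip := FSTN_lip Γ k B D.U hD.pot
  set L := 1 / k with hLdef
  have hK0 : 0 < K := by
    rw [hK]
    positivity
  have hM0 : 0 < M := by
    rw [hM]
    exact Real.exp_pos _
  have hU : |D.U (D.fl E u g • I) - D.U (g • I)| ≤ 8 * L * M * K * |u| := by
    have e1 : D.fl E u g • I = g • ((g⁻¹ * D.fl E u g) • I : ℍ) := by
      rw [← mul_smul, mul_inv_cancel_left]
    have hv : ‖cd ((g⁻¹ * D.fl E u g) • I)‖ ≤ 4 * (M * K * |u|) := by
      have h1 := (VCD_le ((g⁻¹ * D.fl E u g) • I)).trans (FST_dist (g⁻¹ * D.fl E u g))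
      have x00 := (hx 0 0).2
      have x01 := (hx 0 1).2
      have x10 := (hx 1 0).2
      have x11 := (hx 1 1).2
      rw [show (1 : Matrix (Fin 2) (Fin 2) ℝ) 0 0 = 1 from rfl] at x00
      rw [show (1 : Matrix (Fin 2) (Fin 2) ℝ) 0 1 = 0 from rfl, sub_zero] at x01
      rw [show (1 : Matrix (Fin 2) (Fin 2) ℝ) 1 0 = 0 from rfl, sub_zero] at x10
      rw [show (1 : Matrix (Fin 2) (Fin 2) ℝ) 1 1 = 1 from rfl] at x11
      have h2 := abs_add_le ((g⁻¹ * D.fl E u g).1 0 1) ((g⁻¹ * D.fl E u g).1 1 0)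
      have h3 : |(g⁻¹ * D.fl E u g).1 0 0 - (g⁻¹ * D.fl E u g).1 1 1| ≤ |(g⁻¹ * D.fl E u g).1 0 0 - 1| + |(g⁻¹ * D.fl E u g).1 1 1 - 1| := by
        rw [show (g⁻¹ * D.fl E u g).1 0 0 - (g⁻¹ * D.fl E u g).1 1 1 = ((g⁻¹ * D.fl E u g).1 0 0 - 1) - ((g⁻¹ * D.fl E u g).1 1 1 - 1) by ring]
        exact abs_sub _ _
      linarith
    have hp : 0 ≤ M * K * |u| := by positivity
    rcases le_total ‖cd ((g⁻¹ * D.fl E u g) • I)‖ 1 with h | h
    · have h1 := hlip g _ h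
      rw [FST_U0] at h1
      unfold Ug at h1
      rw [VCD_cdicd, ← e1] at h1
      have h2 : L * ‖cd ((g⁻¹ * D.fl E u g) • I)‖ ≤ L * (4 * (M * K * |u|)) := mul_le_mul_of_nonneg_left hv (by linarith)
      nlinarith
    · have h1 := hUa (D.fl E u g • I)
      have h2 := hUa (g • I)
      have h3 : |D.U (D.fl E u g • I) - D.U (g • I)| ≤ |D.U (D.fl E u g • I)| + |D.U (g • I)| := abs_sub _ _
      have h4 : 1 ≤ 4 * (M * K * |u|) := h.trans hv
      nlinarith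
  have h1 : (rho D.U E (D.fl E u g) - rho D.U E g) * (rho D.U E (D.fl E u g) + rho D.U E g) = D.U (D.fl E u g • I) - D.U (g • I) := by
    linear_combination r3 - s3
  rw [← h1, abs_mul, abs_of_pos (show 0 < rho D.U E (D.fl E u g) + rho D.U E g by linarith)] at hU
  have h2 := abs_nonneg (rho D.U E (D.fl E u g) - rho D.U E g)
  have h3 : |rho D.U E (D.fl E u g) - rho D.U E g| * (2 * k) ≤ 8 * L * M * K * |u| := by
    refine le_trans (mul_le_mul_of_nonneg_left ?_ h2) hU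
    linarith
  have h4 : |rho D.U E (D.fl E u g) - rho D.U E g| = |rho D.U E (D.fl E u g) - rho D.U E g| * (2 * k) * (L / 2) := by
    have : (2 * k) * (L / 2) = 1 := by linarith
    rw [mul_assoc, this, mul_one]
  rw [h4]
  have h5 : |rho D.U E (D.fl E u g) - rho D.U E g| * (2 * k) * (L / 2) ≤ 8 * L * M * K * |u| * (L / 2) :=
    mul_le_mul_of_nonneg_right h3 (by linarith)
  refine h5.trans (le_of_eq ?_)
  rw [hK]
  ring

/-- the two functions which vanish to the second order -/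
theorem FSTN_PQ (Γ : Subgroup SL(2, ℝ)) (k : ℝ) (B : ℕ → ℝ) (D : Dyn) (hD : OKN Γ k B D) (E : ℝ) (hE : |E| ≤ k) (K M : ℝ) (hK : K = (1 / k) ^ 2) (hM : M = Real.exp K)
    (C1 C2 : ℝ) (hC1 : C1 = 4 * K ^ 2 * M * M ^ 2 + K ^ 2 * M ^ 2) (hC2 : C2 = 2 * K ^ 2 * M ^ 2 + K * C1) (g : SL(2, ℝ)) (u : ℝ) (hu : |u| ≤ 1) :
    |Real.exp (-(rho D.U E g * u / 2)) * (g⁻¹ * D.fl E u g).1 0 0 - Real.exp (rho D.U E g * u / 2) * (g⁻¹ * D.fl E u g).1 1 1| ≤ C1 * u ^ 2 ∧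
    |Real.exp (-(rho D.U E g * u / 2)) * (g⁻¹ * D.fl E u g).1 0 1 + Real.exp (rho D.U E g * u / 2) * (g⁻¹ * D.fl E u g).1 1 0| ≤ C2 * u ^ 2 := by
  obtain ⟨s1, s2, -, -⟩ := FSTN_rho Γ k B D.U hD.pot E hE g
  have hr := fun v => FSTN_rho Γ k B D.U hD.pot E hE (D.fl E v g)
  rw [← hK] at hr s2
  have hrl := fun v (hv : |v| ≤ 1) => FSTN_rl Γ k B D hD E hE K M hK hM g v hv
  have hx := fun v (hv : |v| ≤ 1) i j => FSTN_x Γ k B D hD E hE K M hK hM g v hv i j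
  have hdx := fun v i => FSTN_dx Γ k B D hD E hE g v i
  have h00 : (g⁻¹ * D.fl E 0 g) = 1 := by
    rw [hD.fl0, inv_mul_cancel]
  obtain ⟨k0, k1⟩ := hD.pot.kpos
  have hK0 : 0 < K := by
    rw [hK]
    positivity
  have hM0 : 0 < M := by
    rw [hM]
    exact Real.exp_pos _
  have hC10 : 0 ≤ C1 := by
    rw [hC1]
    positivity
  set ρ := rho D.U E g with hρ
  -- the exponentials
  have hexp : ∀ v, |v| ≤ 1 → Real.exp (-(ρ * v / 2)) ≤ M ∧ Real.exp (ρ * v / 2) ≤ M := by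
    intro v hv
    have hv' := abs_le.1 hv
    rw [hM]
    constructor
    · exact Real.exp_le_exp.2 (by nlinarith)
    · exact Real.exp_le_exp.2 (by nlinarith)
  have hde : ∀ v, HasDerivAt (fun v => Real.exp (-(ρ * v / 2))) (Real.exp (-(ρ * v / 2)) * -(ρ * 1 / 2)) v := by
    intro v
    exact ((((hasDerivAt_id v).const_mul ρ).div_const 2).neg).exp
  have hde' : ∀ v, HasDerivAt (fun v => Real.exp (ρ * v / 2)) (Real.exp (ρ * v / 2) * (ρ * 1 / 2)) v := by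
    intro v
    exact (((hasDerivAt_id v).const_mul ρ).div_const 2).exp
  have hprod : ∀ (e x Z : ℝ), 0 ≤ e → e ≤ M → |x| ≤ Z → |e * x| ≤ M * Z := by
    intro e x Z he he3 hx
    rw [abs_mul, abs_of_nonneg he]
    exact mul_le_mul he3 hx (abs_nonneg _) hM0.le
  have i01 : (1 : Matrix (Fin 2) (Fin 2) ℝ) 0 1 = 0 := rfl
  have i10 : (1 : Matrix (Fin 2) (Fin 2) ℝ) 1 0 = 0 := rfl
  have hP : ∀ v, |v| ≤ 1 → |Real.exp (-(ρ * v / 2)) * (g⁻¹ * D.fl E v g).1 0 0 - Real.exp (ρ * v / 2) * (g⁻¹ * D.fl E v g).1 1 1| ≤ C1 * |v| * |v| := by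
    intro v hv
    have hd : ∀ w, HasDerivAt (fun w => Real.exp (-(ρ * w / 2)) * (g⁻¹ * D.fl E w g).1 0 0 - Real.exp (ρ * w / 2) * (g⁻¹ * D.fl E w g).1 1 1)
        ((rho D.U E (D.fl E w g) - ρ) / 2 * (Real.exp (-(ρ * w / 2)) * (g⁻¹ * D.fl E w g).1 0 0 + Real.exp (ρ * w / 2) * (g⁻¹ * D.fl E w g).1 1 1)
          - kap D.U E (D.fl E w g) / 2 * (Real.exp (-(ρ * w / 2)) * (g⁻¹ * D.fl E w g).1 0 1 + Real.exp (ρ * w / 2) * (g⁻¹ * D.fl E w g).1 1 0)) w := by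
      intro w
      refine (((hde w).mul (hdx w 0).1).sub ((hde' w).mul (hdx w 1).2)).congr_deriv ?_
      ring
    have h := FST_mv _ _ (C1 * |v|) v hd (fun w hw => by
      have hw1 : |w| ≤ 1 := hw.trans hv
      obtain ⟨e1, e2⟩ := hexp w hw1
      have a1 := hprod _ _ _ (Real.exp_pos _).le e1 (hx w hw1 0 0).1
      have a2 := hprod _ _ _ (Real.exp_pos _).le e2 (hx w hw1 1 1).1
      have b1 := (hx w hw1 0 1).2
      have b2 := (hx w hw1 1 0).2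
      rw [i01, sub_zero] at b1
      rw [i10, sub_zero] at b2
      have a3 := hprod _ _ _ (Real.exp_pos _).le e1 b1
      have a4 := hprod _ _ _ (Real.exp_pos _).le e2 b2
      have r1 := hrl w hw1
      obtain ⟨-, -, k1, -⟩ := hr w
      set a := Real.exp (-(ρ * w / 2)) * (g⁻¹ * D.fl E w g).1 0 0
      set d := Real.exp (ρ * w / 2) * (g⁻¹ * D.fl E w g).1 1 1
      set b := Real.exp (-(ρ * w / 2)) * (g⁻¹ * D.fl E w g).1 0 1
      set c := Real.exp (ρ * w / 2) * (g⁻¹ * D.fl E w g).1 1 0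
      have t1 : |(rho D.U E (D.fl E w g) - ρ) / 2 * (a + d) - kap D.U E (D.fl E w g) / 2 * (b + c)| ≤
          |rho D.U E (D.fl E w g) - ρ| / 2 * |a + d| + |kap D.U E (D.fl E w g)| / 2 * |b + c| := by
        refine (abs_sub _ _).trans (le_of_eq ?_)
        rw [abs_mul, abs_mul, abs_div, abs_div, abs_two]
      have t2 := abs_add_le a d
      have t3 := abs_add_le b c
      have t4 : |rho D.U E (D.fl E w g) - ρ| / 2 * |a + d| ≤ (4 * K ^ 2 * M * |w|) / 2 * (2 * (M * M)) :=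
        mul_le_mul (by linarith) (by linarith) (abs_nonneg _) (by positivity)
      have t5 : |kap D.U E (D.fl E w g)| / 2 * |b + c| ≤ K / 2 * (2 * (M * (M * K * |w|))) :=
        mul_le_mul (by linarith) (by linarith) (abs_nonneg _) (by positivity)
      have t6 : (4 * K ^ 2 * M * |w|) / 2 * (2 * (M * M)) + K / 2 * (2 * (M * (M * K * |w|))) = C1 * |w| := by
        rw [hC1]
        ring
      have t7 : C1 * |w| ≤ C1 * |v| := mul_le_mul_of_nonneg_left hw hC10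
      linarith)
    simp only [h00, mul_zero, zero_div, neg_zero, Real.exp_zero, one_mul] at h
    rw [show (1 : SL(2, ℝ)).1 0 0 = 1 from rfl, show (1 : SL(2, ℝ)).1 1 1 = 1 from rfl, sub_self, sub_zero] at h
    exact h
  have hQ : ∀ v, |v| ≤ 1 → |Real.exp (-(ρ * v / 2)) * (g⁻¹ * D.fl E v g).1 0 1 + Real.exp (ρ * v / 2) * (g⁻¹ * D.fl E v g).1 1 0| ≤ C2 * |v| * |v| := by
    intro v hv
    have hC20 : 0 ≤ C2 := by
      rw [hC2]
      positivity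
    have hd : ∀ w, HasDerivAt (fun w => Real.exp (-(ρ * w / 2)) * (g⁻¹ * D.fl E w g).1 0 1 + Real.exp (ρ * w / 2) * (g⁻¹ * D.fl E w g).1 1 0)
        ((rho D.U E (D.fl E w g) + ρ) / 2 * (Real.exp (ρ * w / 2) * (g⁻¹ * D.fl E w g).1 1 0 - Real.exp (-(ρ * w / 2)) * (g⁻¹ * D.fl E w g).1 0 1)
          + kap D.U E (D.fl E w g) / 2 * (Real.exp (-(ρ * w / 2)) * (g⁻¹ * D.fl E w g).1 0 0 - Real.exp (ρ * w / 2) * (g⁻¹ * D.fl E w g).1 1 1)) w := by
      intro w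
      refine (((hde w).mul (hdx w 0).2).add ((hde' w).mul (hdx w 1).1)).congr_deriv ?_
      ring
    have h := FST_mv _ _ (C2 * |v|) v hd (fun w hw => by
      have hw1 : |w| ≤ 1 := hw.trans hv
      obtain ⟨e1, e2⟩ := hexp w hw1
      have b1 := (hx w hw1 0 1).2
      have b2 := (hx w hw1 1 0).2
      rw [i01, sub_zero] at b1
      rw [i10, sub_zero] at b2
      have a3 := hprod _ _ _ (Real.exp_pos _).le e1 b1
      have a4 := hprod _ _ _ (Real.exp_pos _).le e2 b2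
      have a5 := hP w hw1
      obtain ⟨k0', k2, k1, -⟩ := hr w
      set a := Real.exp (-(ρ * w / 2)) * (g⁻¹ * D.fl E w g).1 0 0
      set d := Real.exp (ρ * w / 2) * (g⁻¹ * D.fl E w g).1 1 1
      set b := Real.exp (-(ρ * w / 2)) * (g⁻¹ * D.fl E w g).1 0 1
      set c := Real.exp (ρ * w / 2) * (g⁻¹ * D.fl E w g).1 1 0
      have t1 : |(rho D.U E (D.fl E w g) + ρ) / 2 * (c - b) + kap D.U E (D.fl E w g) / 2 * (a - d)| ≤
          |rho D.U E (D.fl E w g) + ρ| / 2 * |c - b| + |kap D.U E (D.fl E w g)| / 2 * |a - d| := by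
        refine (abs_add_le _ _).trans (le_of_eq ?_)
        rw [abs_mul, abs_mul, abs_div, abs_div, abs_two]
      have t3 : |c - b| ≤ |c| + |b| := abs_sub _ _
      have t6 := abs_nonneg w
      have t7 : |a - d| ≤ C1 * |w| := by
        refine a5.trans ?_
        have : C1 * |w| * |w| ≤ C1 * |w| * 1 := mul_le_mul_of_nonneg_left hw1 (by positivity)
        linarith
      rw [abs_of_pos (show 0 < rho D.U E (D.fl E w g) + ρ by linarith)] at t1
      have t4 : (rho D.U E (D.fl E w g) + ρ) / 2 * |c - b| ≤ K * (2 * (M * (M * K * |w|))) :=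
        mul_le_mul (by linarith) (by linarith) (abs_nonneg _) (by positivity)
      have t5 : |kap D.U E (D.fl E w g)| / 2 * |a - d| ≤ K * (C1 * |w|) :=
        mul_le_mul (by linarith) t7 (abs_nonneg _) (by positivity)
      have t8 : K * (2 * (M * (M * K * |w|))) + K * (C1 * |w|) = C2 * |w| := by
        rw [hC2]
        ring
      have t9 : C2 * |w| ≤ C2 * |v| := mul_le_mul_of_nonneg_left hw hC20
      linarith)
    simp only [h00, mul_zero, zero_div, neg_zero, Real.exp_zero, one_mul] at h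
    rw [show (1 : SL(2, ℝ)).1 0 1 = 0 from rfl, show (1 : SL(2, ℝ)).1 1 0 = 0 from rfl, add_zero, sub_zero] at h
    exact h
  have e : |u| * |u| = u ^ 2 := by
    rw [← sq, sq_abs]
  have h1 := hP u hu
  have h2 := hQ u hu
  rw [mul_assoc, e] at h1 h2
  exact ⟨h1, h2⟩

theorem FSTN_proof : FSTN_stmt := by
  intro Γ k B _ hk
  obtain ⟨K, hK⟩ : ∃ K : ℝ, K = (1 / k) ^ 2 := ⟨_, rfl⟩
  obtain ⟨M, hM⟩ : ∃ M : ℝ, M = Real.exp K := ⟨_, rfl⟩
  obtain ⟨C1, hC1⟩ : ∃ C1 : ℝ, C1 = 4 * K ^ 2 * M * M ^ 2 + K ^ 2 * M ^ 2 := ⟨_, rfl⟩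
  obtain ⟨C2, hC2⟩ : ∃ C2 : ℝ, C2 = 2 * K ^ 2 * M ^ 2 + K * C1 := ⟨_, rfl⟩
  have hK0 : 0 < K := by
    rw [hK]
    positivity
  have hM1 : 1 ≤ M := by
    rw [hM]
    exact Real.one_le_exp hK0.le
  have hM0 : 0 < M := by linarith
  have hC10 : 0 ≤ C1 := by
    rw [hC1]
    positivity
  have hC20 : 0 ≤ C2 := by
    rw [hC2]
    positivity
  have hMK : K ≤ M * K := by nlinarith
  have hik : 0 < 1 / k := by positivity
  refine ⟨C1 + C2 + M * K + 1 / k + 1, by nlinarith, ?_⟩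
  intro D hD
  obtain ⟨k0, k1⟩ := hD.pot.kpos
  refine ⟨fun z => ⟨?_, ?_⟩, ?_⟩
  · have := hD.pot.lo z
    linarith
  · exact (abs_le.1 (FSTN_U Γ k B D.U hD.pot z)).2
  intro E g hE
  obtain ⟨s1, s2, -, -⟩ := FSTN_rho Γ k B D.U hD.pot E hE g
  rw [← hK] at s2
  refine ⟨?_, by linarith, ?_⟩
  · refine le_trans ?_ s1
    rw [div_le_iff₀ (by nlinarith)]
    have h1 : k * (1 / k) = 1 := by field_simp
    nlinarith [mul_nonneg k0.le hC10, mul_nonneg k0.le hC20, mul_nonneg k0.le (mul_nonneg hM0.le hK0.le)]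
  intro s u hs hs1 hus
  have hu : |u| ≤ 1 := hus.trans hs1
  constructor
  · intro i j
    have h := (FSTN_x Γ k B D hD E hE K M hK hM g u hu i j).2
    have h1 : M * K * |u| ≤ M * K * s := mul_le_mul_of_nonneg_left hus (by positivity)
    nlinarith [mul_nonneg hC10 hs.le, mul_nonneg hC20 hs.le, mul_pos hik hs]
  · have e1 : dist (D.fl E u g • I : ℍ) ((g * aM (rho D.U E g * u)) • I) = dist ((aM (-(rho D.U E g * u)) * (g⁻¹ * D.fl E u g)) • I : ℍ) I := by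
      rw [← FST_am]
      rw [← dist_smul (g * aM (rho D.U E g * u)) ((((aM (rho D.U E g * u))⁻¹ * (g⁻¹ * D.fl E u g)) • I : ℍ)) I, ← mul_smul]
      congr 2
      group
    rw [e1]
    refine (FST_dist _).trans ?_
    obtain ⟨h1, h2⟩ := FSTN_PQ Γ k B D hD E hE K M hK hM C1 C2 hC1 hC2 g u hu
    have m : ∀ i j, (aM (-(rho D.U E g * u)) * (g⁻¹ * D.fl E u g)).1 i j =
        (aM (-(rho D.U E g * u))).1 i 0 * (g⁻¹ * D.fl E u g).1 0 j + (aM (-(rho D.U E g * u))).1 i 1 * (g⁻¹ * D.fl E u g).1 1 j := by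
      intro i j
      show ((aM (-(rho D.U E g * u))).1 * (g⁻¹ * D.fl E u g).1) i j = _
      rw [Matrix.mul_apply, Fin.sum_univ_two]
    have a00 : (aM (-(rho D.U E g * u))).1 0 0 = Real.exp (-(rho D.U E g * u / 2)) := by
      simp [aM]
      ring_nf
    have a01 : (aM (-(rho D.U E g * u))).1 0 1 = 0 := rfl
    have a10 : (aM (-(rho D.U E g * u))).1 1 0 = 0 := rfl
    have a11 : (aM (-(rho D.U E g * u))).1 1 1 = Real.exp (rho D.U E g * u / 2) := by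
      simp [aM]
      ring_nf
    rw [m 0 1, m 1 0, m 0 0, m 1 1, a00, a01, a10, a11, zero_mul, zero_mul, zero_mul, zero_mul, add_zero, add_zero, zero_add, zero_add]
    have h3 := sq_nonneg u
    have h4 : 0 ≤ (M * K + 1 / k + 1) * u ^ 2 := by positivity
    nlinarith

end

end Pool.Agent.VN
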