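import Pool.Agent.helper93.VN.SpecL

/-!
# MP_07c750_an, project VN, block LD, row LTW: two solutions of the Jacobi equation
-/

set_option autoImplicit false

open scoped MatrixGroups ContDiff Topology UpperHalfPlane ComplexConjugate ENNReal
open UpperHalfPlane MeasureTheory Filter Set

namespace Pool.Agent.VN

open Pool.Agent.RS Pool.Agent.VQ

noncomputable section

theorem LTW_nonneg (f f' : ℝ → ℝ) (T : ℝ) (hf : ∀ t, 0 ≤ t → t ≤ T → HasDerivAt f (f' t) t) (h : ∀ t, 0 ≤ t → t ≤ T → 0 ≤ f' t) (h0 : 0 ≤ f 0)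
    (t : ℝ) (ht0 : 0 ≤ t) (htT : t ≤ T) : 0 ≤ f t := by
  have h1 : MonotoneOn f (Icc 0 T) := by
    apply monotoneOn_of_deriv_nonneg (convex_Icc 0 T)
    · intro s hs
      exact (hf s hs.1 hs.2).continuousAt.continuousWithinAt
    · intro s hs
      have hs' := interior_subset hs
      exact (hf s hs'.1 hs'.2).differentiableAt.differentiableWithinAt
    · intro s hs
      have hs' := interior_subset hs
      rw [(hf s hs'.1 hs'.2).deriv]
      exact h s hs'.1 hs'.2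
  have h2 := h1 ⟨le_rfl, ht0.trans htT⟩ ⟨ht0, htT⟩ ht0
  linarith

theorem LTW_alg1 (C l a a' q q' J J' W W' : ℝ) (hC : 1 ≤ C) (hl : 0 ≤ l) (ha : |a - a'| ≤ 100 * C ^ 5 * l) (hq : |q - q'| ≤ 100 * C ^ 5 * l)
    (hJ : 0 < J) (hJ' : 0 < J') (hW0 : 0 ≤ W) (hW0' : 0 ≤ W') (hW : W ≤ 3 * C * J) (hW' : W' ≤ 3 * C * J') :
    |(q - q') * (J * J') - (a - a') * (W * W')| ≤ 1000 * C ^ 7 * l * (J * J') := by
  have h1 : |(q - q') * (J * J') - (a - a') * (W * W')| ≤ |q - q'| * (J * J') + |a - a'| * (W * W') := by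
    refine (abs_sub _ _).trans (le_of_eq ?_)
    rw [abs_mul (q - q') (J * J'), abs_mul (a - a') (W * W'), abs_of_pos (mul_pos hJ hJ'), abs_of_nonneg (mul_nonneg hW0 hW0')]
  have h2 : |q - q'| * (J * J') ≤ 100 * C ^ 5 * l * (J * J') := mul_le_mul_of_nonneg_right hq (mul_pos hJ hJ').le
  have h3 : W * W' ≤ (3 * C * J) * (3 * C * J') := mul_le_mul hW hW' hW0' (by positivity)
  have h4 : |a - a'| * (W * W') ≤ 100 * C ^ 5 * l * ((3 * C * J) * (3 * C * J')) :=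
    mul_le_mul ha h3 (mul_nonneg hW0 hW0') (by positivity)
  have h5 : 100 * C ^ 5 * l * (J * J') ≤ 100 * C ^ 5 * l * (J * J') * C ^ 2 := by
    have h6 : (1 : ℝ) ≤ C ^ 2 := one_le_pow₀ hC
    have h7 : 0 ≤ 100 * C ^ 5 * l * (J * J') := by positivity
    nlinarith
  calc |(q - q') * (J * J') - (a - a') * (W * W')| ≤ 100 * C ^ 5 * l * (J * J') * C ^ 2 + 100 * C ^ 5 * l * ((3 * C * J) * (3 * C * J')) := by linarith
    _ = 1000 * C ^ 7 * l * (J * J') := by ring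

theorem LTW_alg2 (C l a a' u u' r : ℝ) (hC : 1 ≤ C) (hl : 0 ≤ l) (ha : |a - a'| ≤ 100 * C ^ 5 * l) (ha0 : 0 ≤ a) (haC : a ≤ C) (hu0 : 0 ≤ u') (hu : u' ≤ 3 * C)
    (hr : |u - u'| ≤ r + 1000 * C ^ 9 * l) : |a * u - a' * u'| ≤ C * r + 1300 * C ^ 10 * l := by
  have h1 : a * u - a' * u' = a * (u - u') + (a - a') * u' := by ring
  have h2 : |a * (u - u')| ≤ C * (r + 1000 * C ^ 9 * l) := by
    rw [abs_mul, abs_of_nonneg ha0]
    exact mul_le_mul haC hr (abs_nonneg _) (by linarith)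
  have h3 : |(a - a') * u'| ≤ 100 * C ^ 5 * l * (3 * C) := by
    rw [abs_mul, abs_of_nonneg hu0]
    exact mul_le_mul ha hu hu0 (by positivity)
  have h4 : 100 * C ^ 5 * l * (3 * C) ≤ 300 * C ^ 10 * l := by
    have h5 : C ^ 6 ≤ C ^ 10 := pow_le_pow_right₀ hC (by norm_num)
    have h6 : 100 * C ^ 5 * l * (3 * C) = 300 * l * C ^ 6 := by ring
    have h7 : 300 * C ^ 10 * l = 300 * l * C ^ 10 := by ring
    rw [h6, h7]
    exact mul_le_mul_of_nonneg_left h5 (by positivity)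
  rw [h1]
  refine (abs_add_le _ _).trans ?_
  have h8 : C * (r + 1000 * C ^ 9 * l) = C * r + 1000 * C ^ 10 * l := by ring
  linarith

theorem LTW_alg3 (C l x y r z : ℝ) (hC : 1 ≤ C) (hl : 0 ≤ l) (hx : |x| ≤ 100 * C ^ 5 * l) (hy : |y| ≤ C * r + 1300 * C ^ 10 * l) (hr : 0 ≤ r)
    (hz : |z| ≤ 18 * C ^ 3) : |x - y * z| ≤ 18 * C ^ 4 * r + 24000 * C ^ 13 * l := by
  have h1 : |y * z| ≤ (C * r + 1300 * C ^ 10 * l) * (18 * C ^ 3) := by
    rw [abs_mul]
    exact mul_le_mul hy hz (abs_nonneg _) (by positivity)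
  have h2 : 100 * C ^ 5 * l ≤ 100 * C ^ 13 * l := by
    have h5 : C ^ 5 ≤ C ^ 13 := pow_le_pow_right₀ hC (by norm_num)
    have h6 : 100 * C ^ 5 * l = 100 * l * C ^ 5 := by ring
    have h7 : 100 * C ^ 13 * l = 100 * l * C ^ 13 := by ring
    rw [h6, h7]
    exact mul_le_mul_of_nonneg_left h5 (by positivity)
  have h3 : (C * r + 1300 * C ^ 10 * l) * (18 * C ^ 3) = 18 * C ^ 4 * r + 23400 * C ^ 13 * l := by ring
  have h4 : 0 ≤ C ^ 13 * l := by positivity
  refine (abs_sub _ _).trans ?_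
  nlinarith

theorem LTW_mW (C m a J W : ℝ) (hC : 1 ≤ C) (hm : m = 1 / (3 * C ^ 2)) (ha : 1 / C ≤ a) (hJ : 0 < J) (hW : J ≤ 3 * C * W) : m * J ≤ a * W ∧ 0 < W := by
  have hC0 : 0 < C := by linarith
  have h1 : J / (3 * C) ≤ W := by
    rw [div_le_iff₀ (by positivity)]
    linarith
  have h2 : 1 / C * (J / (3 * C)) ≤ a * W := mul_le_mul ha h1 (by positivity) (le_trans (by positivity) ha)
  have h3 : m * J = 1 / C * (J / (3 * C)) := by
    rw [hm]
    field_simp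
  refine ⟨by rw [h3]; exact h2, lt_of_lt_of_le (by positivity) h1⟩

theorem LTW_proof : LTW_stmt := by
  intro C T Λ A1 A2 A3 a q p J W S a' q' p' J' W' S' hC hT hΛ _ _ _ _ _ _ hc hd hp h1 h2 h3
  have hC0 : 0 < C := by linarith
  obtain ⟨m, hm⟩ : ∃ m : ℝ, m = 1 / (3 * C ^ 2) := ⟨_, rfl⟩
  have hm0 : 0 < m := by
    rw [hm]
    positivity
  have hmC : 3 * m * C ^ 2 = 1 := by
    rw [hm]
    field_simp
  have hA1 : 0 ≤ A1 := (abs_nonneg _).trans h1
  have hA2 : 0 ≤ A2 := (abs_nonneg _).trans h2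
  -- the exponentials
  obtain ⟨L, hL⟩ : ∃ L : ℝ → ℝ, L = fun t => Λ * Real.exp (-(m * (T - t))) := ⟨_, rfl⟩
  obtain ⟨e1, he1⟩ : ∃ e1 : ℝ → ℝ, e1 = fun t => Real.exp (-(m * t)) := ⟨_, rfl⟩
  obtain ⟨e2, he2⟩ : ∃ e2 : ℝ → ℝ, e2 = fun t => Real.exp (-(2 * m * t)) := ⟨_, rfl⟩
  have hL0 : ∀ t, 0 ≤ L t := fun t => by
    rw [hL]
    positivity
  have he10 : ∀ t, 0 ≤ e1 t := fun t => by
    rw [he1]
    positivity
  have he20 : ∀ t, 0 ≤ e2 t := fun t => by
    rw [he2]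
    positivity
  have dL : ∀ t, HasDerivAt L (m * L t) t := by
    intro t
    rw [hL]
    have h0 : HasDerivAt (fun s : ℝ => -(m * (T - s))) (-(m * -1)) t := (((hasDerivAt_id t).const_sub T).const_mul m).neg
    refine ((h0.exp).const_mul Λ).congr_deriv ?_
    ring
  have de1 : ∀ t, HasDerivAt e1 (-(m * e1 t)) t := by
    intro t
    rw [he1]
    have h0 : HasDerivAt (fun s : ℝ => -(m * s)) (-(m * 1)) t := ((hasDerivAt_id t).const_mul m).neg
    refine (h0.exp).congr_deriv ?_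
    ring
  have de2 : ∀ t, HasDerivAt e2 (-(2 * m * e2 t)) t := by
    intro t
    rw [he2]
    have h0 : HasDerivAt (fun s : ℝ => -(2 * m * s)) (-(2 * m * 1)) t := ((hasDerivAt_id t).const_mul (2 * m)).neg
    refine (h0.exp).congr_deriv ?_
    ring
  have hLT : L T = Λ := by
    rw [hL]
    simp
  have he100 : e1 0 = 1 := by
    rw [he1]
    simp
  have he200 : e2 0 = 1 := by
    rw [he2]
    simp
  have he12 : ∀ t, 0 ≤ t → e2 t ≤ e1 t := by
    intro t ht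
    rw [he1, he2]
    apply Real.exp_le_exp.2
    nlinarith [mul_nonneg hm0.le ht]
  -- the coefficients
  have hcof : ∀ t, 0 ≤ t → t ≤ T → |a t - a' t| ≤ 100 * C ^ 5 * L t ∧ |q t - q' t| ≤ 100 * C ^ 5 * L t ∧ |p t - p' t| ≤ 100 * C ^ 5 * L t := by
    intro t ht0 htT
    obtain ⟨-, -, -, -, -, -, k1, k2, k3⟩ := hc t ht0 htT
    have e : 100 * C ^ 5 * Λ * Real.exp (-((T - t) / (3 * C ^ 2))) = 100 * C ^ 5 * L t := by
      rw [hL, hm]
      show _ = 100 * C ^ 5 * (Λ * Real.exp (-(1 / (3 * C ^ 2) * (T - t))))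
      rw [show 1 / (3 * C ^ 2) * (T - t) = (T - t) / (3 * C ^ 2) by ring]
      ring
    rw [e] at k1 k2 k3
    exact ⟨k1, k2, k3⟩
  -- first part
  obtain ⟨b, hb⟩ : ∃ b : ℝ → ℝ, b = fun t => e2 t * A1 + 1000 * C ^ 9 * L t := ⟨_, rfl⟩
  have hb0 : ∀ t, 0 ≤ b t := fun t => by
    rw [hb]
    have := he20 t
    have := hL0 t
    positivity
  have db : ∀ t, HasDerivAt b (-(2 * m * e2 t) * A1 + 1000 * C ^ 9 * (m * L t)) t := by
    intro t
    rw [hb]
    exact ((de2 t).mul_const A1).add ((dL t).const_mul (1000 * C ^ 9))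
  have hF0 : |W 0 * J' 0 - W' 0 * J 0| ≤ J 0 * J' 0 * b 0 := by
    obtain ⟨j1, -, -, -, j2, -, -, -⟩ := hp 0 le_rfl hT
    have k1 : W 0 * J' 0 - W' 0 * J 0 = (J 0 * J' 0) * (W 0 / J 0 - W' 0 / J' 0) := by
      field_simp
    rw [k1, abs_mul, abs_of_pos (mul_pos j1 j2)]
    apply mul_le_mul_of_nonneg_left _ (mul_pos j1 j2).le
    refine h1.trans ?_
    rw [hb]
    show A1 ≤ e2 0 * A1 + 1000 * C ^ 9 * L 0
    rw [he200, one_mul]
    have := hL0 0
    have : 0 ≤ 1000 * C ^ 9 * L 0 := by positivity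
    linarith
  have hFd : ∀ t, 0 ≤ t → t ≤ T → |(q t - q' t) * (J t * J' t) - (a t - a' t) * (W t * W' t)| ≤
      (a t * W t * J' t + J t * (a' t * W' t)) * b t + J t * J' t * (-(2 * m * e2 t) * A1 + 1000 * C ^ 9 * (m * L t)) := by
    intro t ht0 htT
    obtain ⟨j1, j2, j3, -, j4, j5, j6, -⟩ := hp t ht0 htT
    obtain ⟨c1, -, -, c2, -, -, -, -, -⟩ := hc t ht0 htT
    obtain ⟨k1, k2, -⟩ := hcof t ht0 htT
    obtain ⟨w1, w2⟩ := LTW_mW C m (a t) (J t) (W t) hC hm c1 j1 j2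
    obtain ⟨w3, w4⟩ := LTW_mW C m (a' t) (J' t) (W' t) hC hm c2 j4 j5
    refine (LTW_alg1 C (L t) (a t) (a' t) (q t) (q' t) (J t) (J' t) (W t) (W' t) hC (hL0 t) k1 k2 j1 j4 w2.le w4.le j3 j6).trans ?_
    have n1 : m * J t * J' t ≤ a t * W t * J' t := mul_le_mul_of_nonneg_right w1 j4.le
    have n2 : J t * (m * J' t) ≤ J t * (a' t * W' t) := mul_le_mul_of_nonneg_left w3 j1.le
    have n3 : (2 * m * (J t * J' t)) * b t ≤ (a t * W t * J' t + J t * (a' t * W' t)) * b t := by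
      apply mul_le_mul_of_nonneg_right _ (hb0 t)
      linarith
    have n4 : (2 * m * (J t * J' t)) * b t + J t * J' t * (-(2 * m * e2 t) * A1 + 1000 * C ^ 9 * (m * L t)) = 1000 * C ^ 7 * L t * (J t * J' t) * (3 * m * C ^ 2) := by
      rw [hb]
      ring
    rw [hmC, mul_one] at n4
    linarith
  have hF : ∀ t, 0 ≤ t → t ≤ T → |W t * J' t - W' t * J t| ≤ J t * J' t * b t := by
    intro t ht0 htT
    have dJJ : ∀ t, HasDerivAt (fun t => J t * J' t * b t)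
        ((a t * W t * J' t + J t * (a' t * W' t)) * b t + J t * J' t * (-(2 * m * e2 t) * A1 + 1000 * C ^ 9 * (m * L t))) t := by
      intro t
      obtain ⟨d1, -, -, d2, -, -⟩ := hd t
      exact (d1.mul d2).mul (db t)
    have dF : ∀ t, HasDerivAt (fun t => W t * J' t - W' t * J t) ((q t - q' t) * (J t * J' t) - (a t - a' t) * (W t * W' t)) t := by
      intro t
      obtain ⟨d1, d3, -, d2, d4, -⟩ := hd t
      refine ((d3.mul d2).sub (d4.mul d1)).congr_deriv ?_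
      ring
    have g1 := LTW_nonneg _ _ T (fun t _ _ => (dJJ t).sub (dF t)) (fun t ht0 htT => by
      have := (abs_le.1 (hFd t ht0 htT)).2
      linarith) (by
      have := (abs_le.1 hF0).2
      show 0 ≤ J 0 * J' 0 * b 0 - (W 0 * J' 0 - W' 0 * J 0)
      linarith) t ht0 htT
    have g2 := LTW_nonneg _ _ T (fun t _ _ => (dJJ t).add (dF t)) (fun t ht0 htT => by
      have := (abs_le.1 (hFd t ht0 htT)).1
      linarith) (by
      have := (abs_le.1 hF0).1
      show 0 ≤ J 0 * J' 0 * b 0 + (W 0 * J' 0 - W' 0 * J 0)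
      linarith) t ht0 htT
    have g1' : 0 ≤ J t * J' t * b t - (W t * J' t - W' t * J t) := g1
    have g2' : 0 ≤ J t * J' t * b t + (W t * J' t - W' t * J t) := g2
    rw [abs_le]
    constructor <;> linarith
  have hU : ∀ t, 0 ≤ t → t ≤ T → |W t / J t - W' t / J' t| ≤ b t := by
    intro t ht0 htT
    obtain ⟨j1, -, -, -, j2, -, -, -⟩ := hp t ht0 htT
    have k1 : W t * J' t - W' t * J t = (J t * J' t) * (W t / J t - W' t / J' t) := by
      field_simp
    have k2 := hF t ht0 htT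
    rw [k1, abs_mul, abs_of_pos (mul_pos j1 j2)] at k2
    exact le_of_mul_le_mul_left k2 (mul_pos j1 j2)
  -- the difference of the logarithmic derivatives
  have hau : ∀ t, 0 ≤ t → t ≤ T → |a t * (W t / J t) - a' t * (W' t / J' t)| ≤ C * (e2 t * A1) + 1300 * C ^ 10 * L t := by
    intro t ht0 htT
    obtain ⟨j1, j2, j3, -, j4, j5, j6, -⟩ := hp t ht0 htT
    obtain ⟨c1, c3, -, c2, -, -, -, -, -⟩ := hc t ht0 htT
    obtain ⟨k1, -, -⟩ := hcof t ht0 htT
    obtain ⟨w3, w4⟩ := LTW_mW C m (a' t) (J' t) (W' t) hC hm c2 j4 j5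
    have k2 := hU t ht0 htT
    rw [hb] at k2
    refine LTW_alg2 C (L t) (a t) (a' t) _ _ (e2 t * A1) hC (hL0 t) k1 (le_trans (by positivity) c1) c3 (by positivity) ?_ k2
    rw [div_le_iff₀ j4]
    exact j6
  -- the derivative of the slope
  have hxi : ∀ t, 0 ≤ t → t ≤ T → HasDerivAt (fun s => S' s / J' s) (p' t - a' t * (W' t / J' t) * (S' t / J' t)) t := by
    intro t ht0 htT
    obtain ⟨-, -, -, -, j4, -, -, -⟩ := hp t ht0 htT
    obtain ⟨-, -, -, d2, -, d3⟩ := hd t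
    refine (d3.div d2 j4.ne').congr_deriv ?_
    field_simp
  obtain ⟨b2, hb2⟩ : ∃ b2 : ℝ → ℝ, b2 = fun t => e1 t * A2 + 54 * C ^ 6 * A1 * (e1 t - e2 t) + 36000 * C ^ 15 * L t := ⟨_, rfl⟩
  have hb20 : ∀ t, 0 ≤ t → 0 ≤ b2 t := fun t ht => by
    rw [hb2]
    have k1 := he10 t
    have k2 := hL0 t
    have k3 := he12 t ht
    have k4 : 0 ≤ 54 * C ^ 6 * A1 * (e1 t - e2 t) := mul_nonneg (by positivity) (by linarith)
    have k5 : 0 ≤ e1 t * A2 := mul_nonneg k1 hA2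
    have k6 : 0 ≤ 36000 * C ^ 15 * L t := by positivity
    show 0 ≤ e1 t * A2 + 54 * C ^ 6 * A1 * (e1 t - e2 t) + 36000 * C ^ 15 * L t
    linarith
  have db2 : ∀ t, HasDerivAt b2 (-(m * e1 t) * A2 + 54 * C ^ 6 * A1 * (-(m * e1 t) - -(2 * m * e2 t)) + 36000 * C ^ 15 * (m * L t)) t := by
    intro t
    rw [hb2]
    exact (((de1 t).mul_const A2).add (((de1 t).sub (de2 t)).const_mul (54 * C ^ 6 * A1))).add ((dL t).const_mul (36000 * C ^ 15))
  have hX : |S T / J T - S' T / J' T| ≤ b2 T := by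
    -- derivative of `H = S - J ξ'`
    have dH : ∀ t, 0 ≤ t → t ≤ T → HasDerivAt (fun s => S s - J s * (S' s / J' s))
        (J t * ((p t - p' t) - (a t * (W t / J t) - a' t * (W' t / J' t)) * (S' t / J' t))) t := by
      intro t ht0 htT
      obtain ⟨j1, -, -, -, j4, -, -, -⟩ := hp t ht0 htT
      obtain ⟨d1, -, d3, -, -, -⟩ := hd t
      refine (d3.sub (d1.mul (hxi t ht0 htT))).congr_deriv ?_
      field_simp
      ring
    have dJb : ∀ t, HasDerivAt (fun s => J s * b2 s) (a t * W t * b2 t + J t * (-(m * e1 t) * A2 + 54 * C ^ 6 * A1 * (-(m * e1 t) - -(2 * m * e2 t)) + 36000 * C ^ 15 * (m * L t))) t := by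
      intro t
      obtain ⟨d1, -, -, -, -, -⟩ := hd t
      exact d1.mul (db2 t)
    have hbd : ∀ t, 0 ≤ t → t ≤ T → |J t * ((p t - p' t) - (a t * (W t / J t) - a' t * (W' t / J' t)) * (S' t / J' t))| ≤
        a t * W t * b2 t + J t * (-(m * e1 t) * A2 + 54 * C ^ 6 * A1 * (-(m * e1 t) - -(2 * m * e2 t)) + 36000 * C ^ 15 * (m * L t)) := by
      intro t ht0 htT
      obtain ⟨j1, j2, j3, -, j4, j5, j6, j7⟩ := hp t ht0 htT
      obtain ⟨c1, -, -, -, -, -, -, -, -⟩ := hc t ht0 htT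
      obtain ⟨-, -, k3⟩ := hcof t ht0 htT
      obtain ⟨w1, w2⟩ := LTW_mW C m (a t) (J t) (W t) hC hm c1 j1 j2
      have hz : |S' t / J' t| ≤ 18 * C ^ 3 := by
        rw [abs_div, abs_of_pos j4, div_le_iff₀ j4]
        exact j7
      have k4 := LTW_alg3 C (L t) _ _ (e2 t * A1) _ hC (hL0 t) k3 (hau t ht0 htT) (mul_nonneg (he20 t) hA1) hz
      rw [abs_mul, abs_of_pos j1]
      have k5 : J t * |(p t - p' t) - (a t * (W t / J t) - a' t * (W' t / J' t)) * (S' t / J' t)| ≤ J t * (18 * C ^ 4 * (e2 t * A1) + 24000 * C ^ 13 * L t) :=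
        mul_le_mul_of_nonneg_left k4 j1.le
      have k6 : m * J t * b2 t ≤ a t * W t * b2 t := mul_le_mul_of_nonneg_right w1 (hb20 t ht0)
      have k7 : m * J t * b2 t + J t * (-(m * e1 t) * A2 + 54 * C ^ 6 * A1 * (-(m * e1 t) - -(2 * m * e2 t)) + 36000 * C ^ 15 * (m * L t)) =
          J t * (18 * C ^ 4 * (e2 t * A1) + 24000 * C ^ 13 * L t) * (3 * m * C ^ 2) := by
        rw [hb2]
        ring
      rw [hmC, mul_one] at k7
      linarith
    have h0 : |S 0 - J 0 * (S' 0 / J' 0)| ≤ J 0 * b2 0 := by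
      obtain ⟨j1, -, -, -, j4, -, -, -⟩ := hp 0 le_rfl hT
      have k1 : S 0 - J 0 * (S' 0 / J' 0) = J 0 * (S 0 / J 0 - S' 0 / J' 0) := by
        field_simp
      rw [k1, abs_mul, abs_of_pos j1]
      apply mul_le_mul_of_nonneg_left _ j1.le
      refine h2.trans ?_
      rw [hb2]
      show A2 ≤ e1 0 * A2 + 54 * C ^ 6 * A1 * (e1 0 - e2 0) + 36000 * C ^ 15 * L 0
      rw [he100, he200, one_mul, sub_self, mul_zero, add_zero]
      have := hL0 0
      have : 0 ≤ 36000 * C ^ 15 * L 0 := by positivity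
      linarith
    have g1 := LTW_nonneg _ _ T (fun t ht0 htT => (dJb t).sub (dH t ht0 htT)) (fun t ht0 htT => by
      have := (abs_le.1 (hbd t ht0 htT)).2
      linarith) (by
      have := (abs_le.1 h0).2
      show 0 ≤ J 0 * b2 0 - (S 0 - J 0 * (S' 0 / J' 0))
      linarith) T hT le_rfl
    have g2 := LTW_nonneg _ _ T (fun t ht0 htT => (dJb t).add (dH t ht0 htT)) (fun t ht0 htT => by
      have := (abs_le.1 (hbd t ht0 htT)).1
      linarith) (by
      have := (abs_le.1 h0).1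
      show 0 ≤ J 0 * b2 0 + (S 0 - J 0 * (S' 0 / J' 0))
      linarith) T hT le_rfl
    have g1' : 0 ≤ J T * b2 T - (S T - J T * (S' T / J' T)) := g1
    have g2' : 0 ≤ J T * b2 T + (S T - J T * (S' T / J' T)) := g2
    obtain ⟨j1, -, -, -, j4, -, -, -⟩ := hp T hT le_rfl
    have k1 : S T - J T * (S' T / J' T) = J T * (S T / J T - S' T / J' T) := by
      field_simp
    have k2 : |S T - J T * (S' T / J' T)| ≤ J T * b2 T := by
      rw [abs_le]
      constructor <;> linarith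
    rw [k1, abs_mul, abs_of_pos j1] at k2
    exact le_of_mul_le_mul_left k2 j1
  -- the logarithm
  obtain ⟨b3, hb3⟩ : ∃ b3 : ℝ → ℝ, b3 = fun t => A3 + 3 / 2 * C ^ 3 * A1 * (1 - e2 t) + 3900 * C ^ 12 * L t := ⟨_, rfl⟩
  have db3 : ∀ t, HasDerivAt b3 (3 / 2 * C ^ 3 * A1 * -(-(2 * m * e2 t)) + 3900 * C ^ 12 * (m * L t)) t := by
    intro t
    rw [hb3]
    have h0 := (((de2 t).const_sub 1).const_mul (3 / 2 * C ^ 3 * A1)).const_add A3
    exact h0.add ((dL t).const_mul (3900 * C ^ 12))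
  have hE : |Real.log (J' T) - Real.log (J T)| ≤ b3 T := by
    have dE : ∀ t, 0 ≤ t → t ≤ T → HasDerivAt (fun s => Real.log (J' s) - Real.log (J s)) (a' t * (W' t / J' t) - a t * (W t / J t)) t := by
      intro t ht0 htT
      obtain ⟨j1, -, -, -, j4, -, -, -⟩ := hp t ht0 htT
      obtain ⟨d1, -, -, d2, -, -⟩ := hd t
      refine ((d2.log j4.ne').sub (d1.log j1.ne')).congr_deriv ?_
      ring
    have hbd : ∀ t, 0 ≤ t → t ≤ T → |a' t * (W' t / J' t) - a t * (W t / J t)| ≤ 3 / 2 * C ^ 3 * A1 * -(-(2 * m * e2 t)) + 3900 * C ^ 12 * (m * L t) := by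
      intro t ht0 htT
      rw [abs_sub_comm]
      refine (hau t ht0 htT).trans (le_of_eq ?_)
      have : 3 / 2 * C ^ 3 * A1 * -(-(2 * m * e2 t)) + 3900 * C ^ 12 * (m * L t) = (C * (e2 t * A1) + 1300 * C ^ 10 * L t) * (3 * m * C ^ 2) := by ring
      rw [this, hmC, mul_one]
    have h0 : |Real.log (J' 0) - Real.log (J 0)| ≤ b3 0 := by
      refine h3.trans ?_
      rw [hb3]
      show A3 ≤ A3 + 3 / 2 * C ^ 3 * A1 * (1 - e2 0) + 3900 * C ^ 12 * L 0
      rw [he200, sub_self, mul_zero, add_zero]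
      have := hL0 0
      have : 0 ≤ 3900 * C ^ 12 * L 0 := by positivity
      linarith
    have g1 := LTW_nonneg _ _ T (fun t ht0 htT => (db3 t).sub (dE t ht0 htT)) (fun t ht0 htT => by
      have := (abs_le.1 (hbd t ht0 htT)).2
      linarith) (by
      have := (abs_le.1 h0).2
      show 0 ≤ b3 0 - (Real.log (J' 0) - Real.log (J 0))
      linarith) T hT le_rfl
    have g2 := LTW_nonneg _ _ T (fun t ht0 htT => (db3 t).add (dE t ht0 htT)) (fun t ht0 htT => by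
      have := (abs_le.1 (hbd t ht0 htT)).1
      linarith) (by
      have := (abs_le.1 h0).1
      show 0 ≤ b3 0 + (Real.log (J' 0) - Real.log (J 0))
      linarith) T hT le_rfl
    have g1' : 0 ≤ b3 T - (Real.log (J' T) - Real.log (J T)) := g1
    have g2' : 0 ≤ b3 T + (Real.log (J' T) - Real.log (J T)) := g2
    rw [abs_le]
    constructor <;> linarith
  -- the constants
  have x2 : e2 T = Real.exp (-(2 * T / (3 * C ^ 2))) := by
    rw [he2, hm]
    show Real.exp _ = _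
    congr 1
    ring
  have x1 : e1 T = Real.exp (-(T / (3 * C ^ 2))) := by
    rw [he1, hm]
    show Real.exp _ = _
    congr 1
    ring
  have p9 : 1000 * C ^ 9 ≤ (10 * C) ^ 20 := by
    have h5 : C ^ 9 ≤ C ^ 20 := pow_le_pow_right₀ hC (by norm_num)
    have h6 : 0 ≤ C ^ 9 := by positivity
    rw [mul_pow]
    nlinarith
  have p15 : 36000 * C ^ 15 ≤ (10 * C) ^ 40 := by
    have h5 : C ^ 15 ≤ C ^ 40 := pow_le_pow_right₀ hC (by norm_num)
    have h6 : 0 ≤ C ^ 15 := by positivity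
    rw [mul_pow]
    nlinarith
  have p12 : 3900 * C ^ 12 ≤ (10 * C) ^ 40 := by
    have h5 : C ^ 12 ≤ C ^ 40 := pow_le_pow_right₀ hC (by norm_num)
    have h6 : 0 ≤ C ^ 12 := by positivity
    rw [mul_pow]
    nlinarith
  have p6 : 54 * C ^ 6 ≤ (10 * C) ^ 20 := by
    have h5 : C ^ 6 ≤ C ^ 20 := pow_le_pow_right₀ hC (by norm_num)
    have h6 : 0 ≤ C ^ 6 := by positivity
    rw [mul_pow]
    nlinarith
  have p3 : 3 / 2 * C ^ 3 ≤ (10 * C) ^ 20 := by
    have h5 : C ^ 3 ≤ C ^ 20 := pow_le_pow_right₀ hC (by norm_num)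
    have h6 : 0 ≤ C ^ 3 := by positivity
    rw [mul_pow]
    nlinarith
  refine ⟨?_, ?_, ?_⟩
  · refine (hU T hT le_rfl).trans ?_
    rw [hb]
    show e2 T * A1 + 1000 * C ^ 9 * L T ≤ _
    rw [x2, hLT]
    have := mul_le_mul_of_nonneg_right p9 hΛ
    linarith
  · refine hX.trans ?_
    rw [hb2]
    show e1 T * A2 + 54 * C ^ 6 * A1 * (e1 T - e2 T) + 36000 * C ^ 15 * L T ≤ _
    rw [← x1, hLT]
    have n1 := mul_le_mul_of_nonneg_right p15 hΛ
    have n2 : 54 * C ^ 6 * A1 * (e1 T - e2 T) ≤ 54 * C ^ 6 * A1 * e1 T := by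
      apply mul_le_mul_of_nonneg_left _ (by positivity)
      linarith [he20 T]
    have n3 : 54 * C ^ 6 * (A1 * e1 T) ≤ (10 * C) ^ 20 * (A1 * e1 T) := mul_le_mul_of_nonneg_right p6 (mul_nonneg hA1 (he10 T))
    linarith
  · refine hE.trans ?_
    rw [hb3]
    show A3 + 3 / 2 * C ^ 3 * A1 * (1 - e2 T) + 3900 * C ^ 12 * L T ≤ _
    rw [hLT]
    have n1 := mul_le_mul_of_nonneg_right p12 hΛ
    have n2 : 3 / 2 * C ^ 3 * A1 * (1 - e2 T) ≤ 3 / 2 * C ^ 3 * A1 * 1 := by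
      apply mul_le_mul_of_nonneg_left _ (by positivity)
      linarith [he20 T]
    have n3 : 3 / 2 * C ^ 3 * A1 ≤ (10 * C) ^ 20 * A1 := mul_le_mul_of_nonneg_right p3 hA1
    linarith

end

end Pool.Agent.VN
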