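import Pool.Agent.helper11.VN.Spec3b

/-!
# MP_07c750_an, project VN, row MTVN: measurability and invariance of the phases
-/

set_option autoImplicit false

open scoped MatrixGroups ContDiff Topology UpperHalfPlane ComplexConjugate ENNReal
open UpperHalfPlane MeasureTheory Filter Set

namespace Pool.Agent.VN

open Pool.Agent.RS Pool.Agent.VQ
open Pool.Agent.RPQ (mean)

/-- joint measurability of a continuous function along the flow -/
theorem MTVN_meas (Γ : Subgroup SL(2, ℝ)) (k : ℝ) (B : ℕ → ℝ) (D : Dyn) (hD : OKN Γ k B D) (h : ℍ → ℝ) (hh : Continuous h) :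
    Measurable (fun q : (SL(2, ℝ) × ℝ) × ℝ => h (D.fl q.1.2 q.2 q.1.1 • I)) := by
  classical
  have hsmul : Continuous (fun g : SL(2, ℝ) => g • (I : ℍ)) := continuous_id.smul continuous_const
  set S : Set ((SL(2, ℝ) × ℝ) × ℝ) := {q | |q.1.2| ≤ k} with hS
  have hSc : IsClosed S := isClosed_le (by fun_prop) continuous_const
  have h1 : ContinuousOn (fun q : (SL(2, ℝ) × ℝ) × ℝ => h (D.fl q.1.2 q.2 q.1.1 • I)) S := by
    have h2 : ContinuousOn (fun q : (SL(2, ℝ) × ℝ) × ℝ => D.fl q.1.2 q.2 q.1.1) S := by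
      have h3 : Continuous (fun q : (SL(2, ℝ) × ℝ) × ℝ => ((q.1.2, q.2, q.1.1) : ℝ × ℝ × SL(2, ℝ))) := by fun_prop
      exact hD.cfl.comp h3.continuousOn (fun q hq => hq)
    exact (hh.comp hsmul).comp_continuousOn h2
  have h4 : ContinuousOn (fun q : (SL(2, ℝ) × ℝ) × ℝ => h (q.1.1 • I)) Sᶜ :=
    ((hh.comp hsmul).comp (continuous_fst.comp continuous_fst)).continuousOn
  have h5 := h1.measurable_piecewise h4 hSc.measurableSet
  have h6 : (fun q : (SL(2, ℝ) × ℝ) × ℝ => h (D.fl q.1.2 q.2 q.1.1 • I)) =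
      S.piecewise (fun q : (SL(2, ℝ) × ℝ) × ℝ => h (D.fl q.1.2 q.2 q.1.1 • I)) (fun q : (SL(2, ℝ) × ℝ) × ℝ => h (q.1.1 • I)) := by
    funext q
    by_cases hq : q ∈ S
    · rw [Set.piecewise_eq_of_mem _ _ _ hq]
    · rw [Set.piecewise_eq_of_notMem _ _ _ hq]
      have hq' : k < |q.1.2| := lt_of_not_ge hq
      rw [(hD.out q.1.2 q.2 q.1.1 hq').1]
  rw [h6]
  exact h5

theorem MTVN_int (G : (SL(2, ℝ) × ℝ) × ℝ → ℝ) (hG : Measurable G) (t : ℝ) :
    Measurable (fun p : SL(2, ℝ) × ℝ => ∫ s in (0 : ℝ)..t, G (p, s)) := by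
  have hG' : StronglyMeasurable (fun q : (SL(2, ℝ) × ℝ) × ℝ => G (q.1, q.2)) := hG.stronglyMeasurable
  have h1 : StronglyMeasurable (fun p : SL(2, ℝ) × ℝ => ∫ s in Ioc 0 t, G (p, s)) :=
    hG'.integral_prod_right' (ν := volume.restrict (Ioc 0 t))
  have h2 : StronglyMeasurable (fun p : SL(2, ℝ) × ℝ => ∫ s in Ioc t 0, G (p, s)) :=
    hG'.integral_prod_right' (ν := volume.restrict (Ioc t 0))
  simp only [intervalIntegral]
  exact h1.measurable.sub h2.measurable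

theorem MTVN_inv (Γ : Subgroup SL(2, ℝ)) (k : ℝ) (B : ℕ → ℝ) (D : Dyn) (hD : OKN Γ k B D)
    (hfl : ∀ E : ℝ, |E| ≤ k → ∀ (γ : Γ) (t : ℝ) (g : SL(2, ℝ)), D.fl E t ((γ : SL(2, ℝ)) * g) = (γ : SL(2, ℝ)) * D.fl E t g)
    (h : ℍ → ℝ) (hh : QU.Inv Γ h) (γ : Γ) (s : ℝ) (p : SL(2, ℝ) × ℝ) :
    h (D.fl (γ • p).2 s (γ • p).1 • I) = h (D.fl p.2 s p.1 • I) := by
  have e1 : (γ • p).2 = p.2 := rfl
  have e2 : (γ • p).1 = (γ : SL(2, ℝ)) * p.1 := rfl
  have e3 : D.fl p.2 s ((γ : SL(2, ℝ)) * p.1) = (γ : SL(2, ℝ)) * D.fl p.2 s p.1 := by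
    by_cases hE : |p.2| ≤ k
    · exact hfl p.2 hE γ s p.1
    · have hE' : k < |p.2| := lt_of_not_ge hE
      rw [(hD.out p.2 s _ hE').1, (hD.out p.2 s p.1 hE').1]
  rw [e1, e2, e3, mul_smul]
  exact hh.2 γ _

theorem MTVN_proof (hFLBN : FLBN_stmt) : MTVN_stmt := by
  intro Γ k B D F f R t e hΓ hD hF hf
  have hfl : ∀ E : ℝ, |E| ≤ k → ∀ (γ : Γ) (t : ℝ) (g : SL(2, ℝ)), D.fl E t ((γ : SL(2, ℝ)) * g) = (γ : SL(2, ℝ)) * D.fl E t g :=
    fun E hE => (hFLBN Γ k B D hΓ hD E hE).2.1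
  have hUf : QU.Inv Γ (fun z => D.U z * f z) := by
    refine ⟨hD.pot.inv.1.mul hf.1, fun γ z => ?_⟩
    show D.U (γ • z) * f (γ • z) = D.U z * f z
    rw [hD.pot.inv.2 γ z, hf.2 γ z]
  have m1 : Measurable (thP D f R t) := by
    have h1 := MTVN_int _ (MTVN_meas Γ k B D hD _ hUf.1) t
    exact h1.const_mul (R / 2)
  have i1 : ∀ (γ : Γ) (p : SL(2, ℝ) × ℝ), thP D f R t (γ • p) = thP D f R t p := by
    intro γ p
    unfold thP
    congr 1
    refine intervalIntegral.integral_congr (fun s _ => ?_)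
    exact MTVN_inv Γ k B D hD hfl _ hUf γ s p
  have m2 : Measurable (avP D f t) := by
    have h1 := MTVN_int _ (MTVN_meas Γ k B D hD _ hf.1) t
    exact h1.const_mul t⁻¹
  have i2 : ∀ (γ : Γ) (p : SL(2, ℝ) × ℝ), avP D f t (γ • p) = avP D f t p := by
    intro γ p
    unfold avP
    congr 1
    refine intervalIntegral.integral_congr (fun s _ => ?_)
    exact MTVN_inv Γ k B D hD hfl _ hf γ s p
  refine ⟨m1, i1, m2, i2, ?_, ?_⟩
  · have hb : MeasurableSet (BadP D F f e t) := by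
      have : Measurable (fun p : SL(2, ℝ) × ℝ => |avP D f t p - mean F f|) := (m2.sub_const _).abs
      exact measurableSet_le measurable_const this
    have hw : MeasurableSet {p : SL(2, ℝ) × ℝ | |p.2| ≤ R ^ (-(1 / 4) : ℝ)} := by
      have : Measurable (fun p : SL(2, ℝ) × ℝ => |p.2|) := measurable_snd.abs
      exact measurableSet_le this measurable_const
    exact hb.inter hw
  · intro γ p
    show (e ≤ |avP D f t (γ • p) - mean F f| ∧ |(γ • p).2| ≤ R ^ (-(1 / 4) : ℝ)) ↔ (e ≤ |avP D f t p - mean F f| ∧ |p.2| ≤ R ^ (-(1 / 4) : ℝ))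
    rw [i2 γ p]
    exact Iff.rfl

end Pool.Agent.VN
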